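import Mathlib

/-!
Buchberger's algorithm over the integers with S-polynomials (Algorithm A') is not correct.

Counterexample: `F = {2 t, 5 t}` for any power product `t`.  The critical pair of `2 t, 5 t` is
`(-t, 2 t)`, so the S-polynomial is `-3 t` (or `3 t` for the other orientation of the pair).
It reduces `-3 t → 2 t → 0` (first by `5 t`, then by `2 t`), and `3 t → -2 t → 0`.  A normal form
algorithm that follows these reductions makes A' stop with output `F`, but `-3 t` has the two
different irreducible descendants `0` and `-t`.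
-/

open MvPolynomial

namespace Pool.Agent.Results.MP_698df0_al.Counterexample

/-- Position of an integer in the list `0, -1, 1, -2, 2, -3, 3, ...`. -/
def rk (a : ℤ) : ℕ := if a < 0 then 2 * a.natAbs - 1 else 2 * a.natAbs

/-- The order `0 ≺ -1 ≺ 1 ≺ -2 ≺ 2 ≺ ...` on the integers. -/
def prec (a b : ℤ) : Prop := rk a < rk b

instance (a b : ℤ) : Decidable (prec a b) := inferInstanceAs (Decidable (rk a < rk b))

/-- The polynomial ring in `n` variables over the integers. -/
abbrev P (n : ℕ) := MvPolynomial (Fin n) ℤ

/-- One reduction step `g →_F h`. -/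
def Red {n : ℕ} (m : MonomialOrder (Fin n)) (F : Finset (P n)) (g h : P n) : Prop :=
  ∃ f ∈ F, f ≠ 0 ∧ ∃ (b : ℤ) (u : Fin n →₀ ℕ),
    g.coeff (u + m.degree f) ≠ 0 ∧
    prec (g.coeff (u + m.degree f) - b * m.leadingCoeff f) (g.coeff (u + m.degree f)) ∧
    h = g - monomial u b * f

/-- `h` is an irreducible element reachable from `g` modulo `F`. -/
def IsNormalForm {n : ℕ} (m : MonomialOrder (Fin n)) (F : Finset (P n)) (g h : P n) : Prop :=
  Relation.ReflTransGen (Red m F) g h ∧ ¬ ∃ h', Red m F h h'

/-- `S` is a normal form algorithm. -/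
def IsNormalFormAlgorithm {n : ℕ} (m : MonomialOrder (Fin n)) (S : Finset (P n) → P n → P n) :
    Prop :=
  ∀ F g, IsNormalForm m F g (S F g)

/-- `F` is a Groebner basis: every polynomial has exactly one irreducible descendant. -/
def IsGroebner {n : ℕ} (m : MonomialOrder (Fin n)) (F : Finset (P n)) : Prop :=
  ∀ g, ∃! h, IsNormalForm m F g h

/-- The recursion defining `M`, run for at most `k` steps. -/
def Maux (c : ℤ) : ℕ → ℤ → ℤ
  | 0, _ => 0
  | k + 1, a =>
      if 0 < a * c ∧ prec (a - c) a then Maux c k (a - c) + 1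
      else if a * c < 0 ∧ prec (a + c) a then Maux c k (a + c) - 1
      else 0

/-- The multiplier `M(a,c)`.  Every recursive call lowers `rk a`, so `rk a` steps suffice;
see `M_eq` for the recursion of the problem statement. -/
def M (a c : ℤ) : ℤ := Maux c (rk a) a

/-- The least integer reducible modulo `c`. -/
def L (c : ℤ) : ℤ := if Even c then |c| / 2 else -((|c| + 1) / 2)

/-- The least common reducible: the `≺`-maximum of `L c₁` and `L c₂`. -/
def LCR (c₁ c₂ : ℤ) : ℤ := if prec (L c₁) (L c₂) then L c₂ else L c₁

/-- The S-polynomial `p₁ - p₂` of `f₁, f₂`, where `(p₁, p₂)` is their critical pair. -/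
noncomputable def sPoly {n : ℕ} (m : MonomialOrder (Fin n)) (f₁ f₂ : P n) : P n :=
  let U := m.degree f₁ ⊔ m.degree f₂
  let a := LCR (m.leadingCoeff f₁) (m.leadingCoeff f₂)
  let p₁ := monomial U a - monomial (U - m.degree f₁) (M a (m.leadingCoeff f₁)) * f₁
  let p₂ := monomial U a - monomial (U - m.degree f₂) (M a (m.leadingCoeff f₂)) * f₂
  p₁ - p₂

open Classical in
/-- One pass through the loop of Algorithm A' on the state `(G, B)`, with an arbitrary choice
of the pair `{f₁, f₂}` in `B` and of the order in which its members are listed. -/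
def Step {n : ℕ} (m : MonomialOrder (Fin n)) (S : Finset (P n) → P n → P n)
    (x y : Finset (P n) × Finset (Sym2 (P n))) : Prop :=
  ∃ f₁ f₂, s(f₁, f₂) ∈ x.2 ∧
    y = if S x.1 (sPoly m f₁ f₂) = 0 then (x.1, x.2.erase s(f₁, f₂))
        else (insert (S x.1 (sPoly m f₁ f₂)) x.1,
          x.2.erase s(f₁, f₂) ∪ x.1.image (fun g => s(g, S x.1 (sPoly m f₁ f₂))))

theorem Maux_eq (c : ℤ) : ∀ (k l : ℕ) (a : ℤ), rk a ≤ k → rk a ≤ l → Maux c k a = Maux c l a := by
  intro k
  induction k with
  | zero =>
    intro l a hk _
    cases l with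
    | zero => rfl
    | succ l =>
      have h1 : ¬ prec (a - c) a := by unfold prec; omega
      have h2 : ¬ prec (a + c) a := by unfold prec; omega
      simp [Maux, h1, h2]
  | succ k ih =>
    intro l a hk hl
    cases l with
    | zero =>
      have h1 : ¬ prec (a - c) a := by unfold prec; omega
      have h2 : ¬ prec (a + c) a := by unfold prec; omega
      simp [Maux, h1, h2]
    | succ l =>
      simp only [Maux]
      split_ifs with h1 h2
      · have := h1.2
        unfold prec at this
        rw [ih l (a - c) (by omega) (by omega)]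
      · have := h2.2
        unfold prec at this
        rw [ih l (a + c) (by omega) (by omega)]
      · rfl

/-- `M` satisfies the recursion given in the problem. -/
theorem M_eq (a c : ℤ) :
    M a c = if 0 < a * c ∧ prec (a - c) a then M (a - c) c + 1
      else if a * c < 0 ∧ prec (a + c) a then M (a + c) c - 1 else 0 := by
  unfold M
  rw [Maux_eq c (rk a) (rk a + 1) a le_rfl (Nat.le_succ _)]
  simp only [Maux]
  split_ifs with h1 h2
  · have := h1.2
    unfold prec at this
    rw [Maux_eq c (rk a) (rk (a - c)) (a - c) (by omega) le_rfl]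
  · have := h2.2
    unfold prec at this
    rw [Maux_eq c (rk a) (rk (a + c)) (a + c) (by omega) le_rfl]
  · rfl

theorem red_wf {n : ℕ} (m : MonomialOrder (Fin n)) (F : Finset (P n)) :
    WellFounded (fun h g : P n => Red m F g h) := by
  have hw : WellFounded (Finsupp.Lex (fun a b : Fin n →₀ ℕ => m.toSyn b < m.toSyn a) prec) := by
    haveI : Std.Trichotomous (fun a b : Fin n →₀ ℕ => m.toSyn b < m.toSyn a) := by
      refine ⟨fun a b h1 h2 => ?_⟩
      exact m.toSyn.injective (le_antisymm (not_lt.1 h1) (not_lt.1 h2))
    refine Finsupp.Lex.wellFounded' (fun a h => ?_) (InvImage.wf rk wellFounded_lt) ?_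
    · unfold prec at h
      simp [rk] at h
    · exact InvImage.wf m.toSyn wellFounded_lt
  refine Subrelation.wf (r := InvImage _ (fun g : P n => AddMonoidAlgebra.coeff g)) ?_
    (InvImage.wf _ hw)
  rintro h g ⟨f, -, -, b, u, -, hlt, rfl⟩
  refine ⟨u + m.degree f, fun d hd => ?_, ?_⟩
  · change MvPolynomial.coeff d (g - monomial u b * f) = MvPolynomial.coeff d g
    rw [coeff_sub, m.coeff_eq_zero_of_lt (f := monomial u b * f), sub_zero]
    refine lt_of_le_of_lt ?_ hd
    refine le_trans m.degree_mul_le ?_
    simp only [map_add]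
    gcongr
    exact m.degree_monomial_le b
  · change prec (MvPolynomial.coeff (u + m.degree f) (g - monomial u b * f))
      (MvPolynomial.coeff (u + m.degree f) g)
    rw [coeff_sub, coeff_monomial_mul]
    exact hlt

theorem exists_normalForm {n : ℕ} (m : MonomialOrder (Fin n)) (F : Finset (P n)) (g : P n) :
    ∃ h, IsNormalForm m F g h := by
  induction g using (red_wf m F).induction with
  | _ g ih =>
    by_cases hg : ∃ h', Red m F g h'
    · obtain ⟨h', hh'⟩ := hg
      obtain ⟨h, h1, h2⟩ := ih h' hh'
      exact ⟨h, Relation.ReflTransGen.head hh' h1, h2⟩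
    · exact ⟨g, Relation.ReflTransGen.refl, hg⟩

theorem red_monomial {n : ℕ} (m : MonomialOrder (Fin n)) (F : Finset (P n)) (t : Fin n →₀ ℕ)
    (a b c : ℤ) (hc : c ≠ 0) (ha : a ≠ 0) (hF : monomial t c ∈ F) (h : prec (a - b * c) a) :
    Red m F (monomial t a) (monomial t (a - b * c)) := by
  refine ⟨monomial t c, hF, by simpa using hc, b, 0, ?_, ?_, ?_⟩
  · simpa [m.degree_monomial, hc] using ha
  · simpa [m.degree_monomial, hc] using h
  · rw [monomial_mul, zero_add, map_sub]

open Classical in
/-- For every number of variables, every admissible term ordering and every power product `t`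
there is a normal form algorithm `S` such that Algorithm A', started on `F = {2 t, 5 t}` with any
set `B` of pairs from `F` (in particular with all pairs), has no infinite run, never changes
`G = F` whatever pairs are chosen, and `F` is not a Groebner basis. -/
theorem result (n : ℕ) (m : MonomialOrder (Fin n)) (t : Fin n →₀ ℕ) :
    ∃ S : Finset (P n) → P n → P n, IsNormalFormAlgorithm m S ∧
      ∀ F : Finset (P n), F = {monomial t 2, monomial t 5} →
        ¬ IsGroebner m F ∧
        ∀ B ⊆ F.sym2, Acc (fun y x => Step m S x y) (F, B) ∧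
          ∀ G B', Relation.ReflTransGen (Step m S) (F, B) (G, B') → G = F := by
  set F₀ : Finset (P n) := {monomial t 2, monomial t 5} with hF₀
  have h2 : (monomial t 2 : P n) ∈ F₀ := by simp [hF₀]
  have h5 : (monomial t 5 : P n) ∈ F₀ := by simp [hF₀]
  have irr0 : ¬ ∃ h', Red m F₀ 0 h' := by
    rintro ⟨h', f, -, -, b, u, hne, -⟩
    simp at hne
  have irr1 : ¬ ∃ h', Red m F₀ (monomial t (-1)) h' := by
    rintro ⟨h', f, hf, -, b, u, hne, hlt, -⟩
    rw [coeff_monomial] at hne hlt
    split_ifs at hne hlt with he
    · simp only [hF₀, Finset.mem_insert, Finset.mem_singleton] at hf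
      rcases hf with rfl | rfl
      · rw [m.leadingCoeff_monomial] at hlt
        unfold prec rk at hlt
        split_ifs at hlt <;> omega
      · rw [m.leadingCoeff_monomial] at hlt
        unfold prec rk at hlt
        split_ifs at hlt <;> omega
    · exact hne rfl
  have nfm : IsNormalForm m F₀ (monomial t (-3)) 0 := by
    refine ⟨?_, irr0⟩
    have r1 := red_monomial m F₀ t (-3) (-1) 5 (by decide) (by decide) h5 (by decide)
    have r2 := red_monomial m F₀ t 2 1 2 (by decide) (by decide) h2 (by decide)
    norm_num at r1 r2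
    exact (Relation.ReflTransGen.single (by simpa using r1)).tail r2
  have nfp : IsNormalForm m F₀ (monomial t 3) 0 := by
    refine ⟨?_, irr0⟩
    have r1 := red_monomial m F₀ t 3 1 5 (by decide) (by decide) h5 (by decide)
    have r2 := red_monomial m F₀ t (-2) (-1) 2 (by decide) (by decide) h2 (by decide)
    norm_num at r1 r2
    exact (Relation.ReflTransGen.single r1).tail r2
  have nfm' : IsNormalForm m F₀ (monomial t (-3)) (monomial t (-1)) := by
    refine ⟨?_, irr1⟩
    have r1 := red_monomial m F₀ t (-3) (-1) 2 (by decide) (by decide) h2 (by decide)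
    norm_num at r1
    exact Relation.ReflTransGen.single (by simpa using r1)
  let S : Finset (P n) → P n → P n := fun F g =>
    if IsNormalForm m F g 0 then 0 else Classical.choose (exists_normalForm m F g)
  have hS : IsNormalFormAlgorithm m S := by
    intro F g
    by_cases h : IsNormalForm m F g 0
    · simpa [S, h] using h
    · simpa [S, h] using Classical.choose_spec (exists_normalForm m F g)
  have hsp : ∀ f₁ ∈ F₀, ∀ f₂ ∈ F₀, S F₀ (sPoly m f₁ f₂) = 0 := by
    have e25 : sPoly m (monomial t 2) (monomial t 5) = monomial t (-3) := by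
      have a1 : LCR 2 5 = -3 := by decide
      have a2 : M (-3) 2 = -1 := by decide
      have a3 : M (-3) 5 = -1 := by decide
      simp only [sPoly, m.leadingCoeff_monomial, m.degree_monomial, a1, a2, a3]
      simp only [OfNat.ofNat_ne_zero, if_false, sup_idem, tsub_self, monomial_mul, zero_add,
        ← map_sub]
      norm_num
    have e52 : sPoly m (monomial t 5) (monomial t 2) = monomial t 3 := by
      have a1 : LCR 5 2 = -3 := by decide
      have a2 : M (-3) 2 = -1 := by decide
      have a3 : M (-3) 5 = -1 := by decide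
      simp only [sPoly, m.leadingCoeff_monomial, m.degree_monomial, a1, a2, a3]
      simp only [OfNat.ofNat_ne_zero, if_false, sup_idem, tsub_self, monomial_mul, zero_add,
        ← map_sub]
      norm_num
    have eff : ∀ f : P n, sPoly m f f = 0 := fun f => by simp [sPoly]
    have nf0 : IsNormalForm m F₀ 0 0 := ⟨Relation.ReflTransGen.refl, irr0⟩
    intro f₁ hf₁ f₂ hf₂
    simp only [hF₀, Finset.mem_insert, Finset.mem_singleton] at hf₁ hf₂
    rcases hf₁ with rfl | rfl <;> rcases hf₂ with rfl | rfl
    · rw [eff]; exact if_pos nf0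
    · rw [e25]; exact if_pos nfm
    · rw [e52]; exact if_pos nfp
    · rw [eff]; exact if_pos nf0
  have hstep : ∀ B ⊆ F₀.sym2, ∀ y, Step m S (F₀, B) y → y.1 = F₀ ∧ y.2 ⊂ B := by
    rintro B hB y ⟨f₁, f₂, hmem, rfl⟩
    have hm := Finset.mk_mem_sym2_iff.1 (hB hmem)
    rw [if_pos (hsp f₁ hm.1 f₂ hm.2)]
    exact ⟨rfl, Finset.erase_ssubset hmem⟩
  refine ⟨S, hS, ?_⟩
  rintro F rfl
  refine ⟨fun hG => ?_, fun B hB => ⟨?_, ?_⟩⟩
  · have := (hG (monomial t (-3))).unique nfm nfm'
    simp at this
  · induction B using Finset.strongInduction with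
    | H B ih =>
      refine Acc.intro _ fun y hy => ?_
      obtain ⟨h1, h2⟩ := hstep B hB y hy
      obtain ⟨G, B'⟩ := y
      obtain rfl : G = F₀ := h1
      exact ih B' h2 (h2.subset.trans hB)
  · intro G B' h
    have key : ∀ y, Relation.ReflTransGen (Step m S) (F₀, B) y → y.1 = F₀ ∧ y.2 ⊆ F₀.sym2 := by
      intro y hy
      induction hy with
      | refl => exact ⟨rfl, hB⟩
      | @tail y z _ hyz ih =>
        obtain ⟨G, B'⟩ := y
        obtain ⟨h1, h2⟩ := ih
        obtain rfl : G = F₀ := h1
        obtain ⟨h3, h4⟩ := hstep B' h2 z hyz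
        exact ⟨h3, h4.subset.trans h2⟩
    exact (key _ h).1

end Pool.Agent.Results.MP_698df0_al.Counterexample
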